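import Pool.Agent.Helper53.Hereditary
import Pool.Agent.Helper53.LeftCase
import Pool.Agent.Helper53.RightFinal

set_option autoImplicit false

namespace Pool.Agent.Results.MP_e07d6f_an.HereditaryQ1

open Pool.Agent.Helper53

/-- `K(ℓ¹)` is not left hereditary, and there is a complex Banach space `E` such that `K(E)` is
not right hereditary. -/
theorem result : ¬ KLeftHereditary (lp (fun _ : ℕ => ℂ) 1) ∧
    ∃ (E : Type) (_ : NormedAddCommGroup E) (_ : NormedSpace ℂ E),
      CompleteSpace E ∧ ¬ KRightHereditary E := by
  refine ⟨fun h => ?_, Psi.Sp Psi.branch, inferInstance, inferInstance, inferInstance,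
    fun h => ?_⟩
  · have : CompleteSpace (KOp (lp (fun _ : ℕ => ℂ) 1)) :=
      completeSpace_compactOps (lp (fun _ : ℕ => ℂ) 1)
    exact not_leftProjective_ell1 (leftProjective_of_leftHereditary h)
  · have : CompleteSpace (KOp (Psi.Sp Psi.branch)) :=
      completeSpace_compactOps (Psi.Sp Psi.branch)
    exact not_KRightProjective_psi (rightProjective_of_rightHereditary h)

end Pool.Agent.Results.MP_e07d6f_an.HereditaryQ1
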